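import Mathlib
import Pool.Agent.Y544.ED.Final

set_option autoImplicit false

/-!
# Equality of degrees is definable in the polynomial ring `K[X]`

`K` is any algebraically closed field of characteristic zero, for example the complex numbers.
The formula uses no parameters.
-/

namespace Pool.Agent.Results.MP_d395f7_lc.EqualDegreeDefinable

open Polynomial FirstOrder

/-- For every algebraically closed field `K` of characteristic `0` (in particular for `ℂ`), the
set of pairs of polynomials of equal degree is definable, without parameters, in the ring `K[X]`.
The degree is Mathlib's `Polynomial.degree`, so the degree of `0` is `⊥`. -/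
theorem result (K : Type) [Field K] [IsAlgClosed K] [CharZero K] :
    letI := FirstOrder.Ring.compatibleRingOfRing K[X]
    (∅ : Set K[X]).Definable₂ Language.ring {p : K[X] × K[X] | p.1.degree = p.2.degree} :=
  Pool.Agent.Y544.ED.definable_degree_eq K

end Pool.Agent.Results.MP_d395f7_lc.EqualDegreeDefinable
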