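import Mathlib
import Pool.Agent.Y544.ED.Final

set_option autoImplicit false

/-!
# Equality of degrees in `K[X]`: definitions with two blocks of quantifiers

`K` is any algebraically closed field of characteristic zero, for example the complex numbers.
The only parameter is the variable `X`.
-/

namespace Pool.Agent.Results.MP_d395f7_lc.EqualDegreeTwoBlocks

open Polynomial FirstOrder

/-- For every algebraically closed field `K` of characteristic `0` (in particular for `ℂ`), the
relation `deg f = deg g` on `K[X]` is defined both by an `∃∀` formula and by a `∀∃` formula of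
the language of rings, each with the single parameter `X`. -/
theorem result (K : Type) [Field K] [IsAlgClosed K] [CharZero K] :
    letI := FirstOrder.Ring.compatibleRingOfRing K[X]
    (∃ φ : Language.ring.Formula (Fin 3 ⊕ Fin 8 ⊕ Fin 9), φ.IsQF ∧ ∀ f g : K[X],
      f.degree = g.degree ↔ ∃ x : Fin 8 → K[X], ∀ y : Fin 9 → K[X],
        φ.Realize (Sum.elim ![X, f, g] (Sum.elim x y))) ∧
    (∃ φ : Language.ring.Formula (Fin 3 ⊕ Fin 10 ⊕ Fin 9), φ.IsQF ∧ ∀ f g : K[X],
      f.degree = g.degree ↔ ∀ x : Fin 10 → K[X], ∃ y : Fin 9 → K[X],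
        φ.Realize (Sum.elim ![X, f, g] (Sum.elim x y))) :=
  ⟨Pool.Agent.Y544.ED.exists_forall_form K, Pool.Agent.Y544.ED.forall_exists_form K⟩

end Pool.Agent.Results.MP_d395f7_lc.EqualDegreeTwoBlocks
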